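import Mathlib
import Pool.Agent.H35.APNProof

set_option autoImplicit false

namespace Pool.Agent.Results.MP_4cdc07_co.NoMax

open Finset Pool.Agent.H35.APN

/-- APN: every equation `D_a F (x) = b` with `a ≠ 0` has at most two solutions. -/
def APN {n : ℕ} (F : V n → V n) : Prop :=
  ∀ a b : V n, a ≠ 0 → (univ.filter fun x => F x + F (x + a) = b).card ≤ 2

/-- Quadratic: every derivative is an affine map. -/
def Quadratic {n : ℕ} (F : V n → V n) : Prop :=
  ∀ a : V n, ∃ (L : V n →ₗ[ZMod 2] V n) (c : V n), ∀ x, F x + F (x + a) = L x + c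

theorem isAPN {n : ℕ} {F : V n → V n} (h : APN F) : IsAPN F := by
  intro a b ha
  have h2 := h a b ha
  have h1 : (univ.filter fun x => F x + F (x + a) = b).card ≠ 1 := by
    intro h1
    obtain ⟨x, hx⟩ := card_eq_one.1 h1
    have m1 : x ∈ univ.filter fun x => F x + F (x + a) = b := by rw [hx]; simp
    have m2 : x + a ∈ univ.filter fun x => F x + F (x + a) = b := by
      simp only [mem_filter, mem_univ, true_and] at m1 ⊢
      rw [add_assoc, add_self', add_zero, add_comm]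
      exact m1
    rw [hx, mem_singleton] at m2
    exact ha (by simpa using m2)
  omega

theorem sym4 {α : Type} [DecidableEq α] (φ : α → α → ℤ) (hs : ∀ x y, φ x y = φ y x)
    (A : Finset α) (h1 : ∀ x ∈ A, (4 : ℤ) ∣ φ x x) (h2 : ∀ x ∈ A, ∀ y ∈ A, (2 : ℤ) ∣ φ x y) :
    (4 : ℤ) ∣ ∑ x ∈ A, ∑ y ∈ A, φ x y := by
  induction A using Finset.induction_on with
  | empty => simp
  | insert a A ha ih =>
    have i1 := ih (fun x hx => h1 x (mem_insert_of_mem hx))
      (fun x hx y hy => h2 x (mem_insert_of_mem hx) y (mem_insert_of_mem hy))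
    have i2 := h1 a (mem_insert_self _ _)
    have i3 : (2 : ℤ) ∣ ∑ y ∈ A, φ a y :=
      dvd_sum fun y hy => h2 a (mem_insert_self _ _) y (mem_insert_of_mem hy)
    simp only [sum_insert ha, sum_add_distrib]
    have i4 : ∑ x ∈ A, φ x a = ∑ y ∈ A, φ a y := sum_congr rfl fun x _ => hs x a
    rw [i4]
    omega

theorem cnt_sup {α : Type} [DecidableEq α] (E S : Finset α) (h : S ⊆ E) :
    ∑ T ∈ E.powerset, (if S ⊆ T then (1 : ℤ) else 0) = 2 ^ (E.card - S.card) := by
  rw [sum_boole]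
  have : E.powerset.filter (fun T => S ⊆ T) = Finset.Icc S E := by
    ext T
    simp [and_comm]
  rw [this, Finset.card_Icc_finset h]
  push_cast
  rfl

theorem mce {α : Type} [DecidableEq α] (E : Finset α) (d : ℕ) (hd1 : 2 * d < E.card)
    (hd2 : d + 2 ≤ E.card) (g : Finset α → ℤ) (hg : ∀ R ⊆ E, g R = 0 ∨ g R = 1)
    (hS : ∀ S ⊆ E, d < S.card → (2 : ℤ) ∣ ∑ R ∈ S.powerset, g R) :
    (4 : ℤ) ∣ ∑ T ∈ E.powerset, g T := by
  set A := E.powerset.filter fun S => ¬ (2 : ℤ) ∣ ∑ R ∈ S.powerset, g R with hA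
  have hAd : ∀ S ∈ A, S ⊆ E ∧ S.card ≤ d := by
    intro S hS'
    obtain ⟨h1, h2⟩ := mem_filter.1 hS'
    exact ⟨mem_powerset.1 h1, not_lt.1 fun h => h2 (hS S (mem_powerset.1 h1) h)⟩
  let cnt : Finset α → ℤ := fun T => ∑ S ∈ A, if S ⊆ T then 1 else 0
  have par : ∀ T ⊆ E, (2 : ℤ) ∣ cnt T - g T := by
    intro T hT
    have e1 : (2 : ℤ) ∣ cnt T - ∑ S ∈ T.powerset, ∑ R ∈ S.powerset, g R := by
      have : cnt T = ∑ S ∈ T.powerset, if ¬ (2 : ℤ) ∣ ∑ R ∈ S.powerset, g R then 1 else 0 := by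
        simp only [cnt, sum_boole]
        congr 2
        ext S
        simp only [hA, mem_filter, mem_powerset]
        exact ⟨fun h => ⟨h.2, h.1.2⟩, fun h => ⟨⟨h.1.trans hT, h.2⟩, h.1⟩⟩
      rw [this, ← sum_sub_distrib]
      refine dvd_sum fun S _ => ?_
      split_ifs <;> omega
    have e2 : ∑ S ∈ T.powerset, ∑ R ∈ S.powerset, g R =
        ∑ R ∈ T.powerset, g R * 2 ^ (T.card - R.card) := by
      have : ∀ S ∈ T.powerset, ∑ R ∈ S.powerset, g R =
          ∑ R ∈ T.powerset, g R * if R ⊆ S then 1 else 0 := by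
        intro S hS'
        simp only [mul_ite, mul_one, mul_zero]
        rw [← sum_filter]
        refine sum_congr ?_ fun _ _ => rfl
        ext R
        simp only [mem_filter, mem_powerset]
        exact ⟨fun h => ⟨h.trans (mem_powerset.1 hS'), h⟩, fun h => h.2⟩
      rw [sum_congr rfl this, sum_comm]
      refine sum_congr rfl fun R hR => ?_
      rw [← mul_sum, cnt_sup T R (mem_powerset.1 hR)]
    have e3 : (2 : ℤ) ∣ ∑ R ∈ T.powerset, g R * 2 ^ (T.card - R.card) - g T := by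
      rw [← add_sum_erase _ _ (mem_powerset_self T)]
      simp only [Nat.sub_self, pow_zero, mul_one, add_sub_cancel_left]
      refine dvd_sum fun R hR => ?_
      obtain ⟨h1, h2⟩ := mem_erase.1 hR
      have : R.card < T.card := card_lt_card (Finset.ssubset_iff_subset_ne.2 ⟨mem_powerset.1 h2, h1⟩)
      exact Dvd.dvd.mul_left (dvd_pow_self 2 (by omega)) _
    rw [e2] at e1
    omega
  have f1 : (4 : ℤ) ∣ ∑ T ∈ E.powerset, (cnt T * cnt T - g T) := by
    refine dvd_sum fun T hT => ?_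
    obtain ⟨c, hc⟩ := par T (mem_powerset.1 hT)
    have : cnt T = g T + 2 * c := by linarith
    rw [this]
    rcases hg T (mem_powerset.1 hT) with h | h <;> rw [h]
    · exact ⟨c * c, by ring⟩
    · exact ⟨c * c + c, by ring⟩
  have f2 : ∑ T ∈ E.powerset, cnt T * cnt T =
      ∑ S ∈ A, ∑ S' ∈ A, ∑ T ∈ E.powerset, if S ∪ S' ⊆ T then (1 : ℤ) else 0 := by
    simp only [cnt, sum_mul_sum]
    rw [sum_comm]
    refine sum_congr rfl fun S _ => ?_
    rw [sum_comm]
    refine sum_congr rfl fun S' _ => sum_congr rfl fun T _ => ?_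
    by_cases h1 : S ⊆ T <;> by_cases h2 : S' ⊆ T <;> simp [h1, h2, union_subset_iff]
  have f3 : (4 : ℤ) ∣ ∑ T ∈ E.powerset, cnt T * cnt T := by
    rw [f2]
    apply sym4
    · intro x y
      rw [union_comm]
    · intro x hx
      obtain ⟨h1, h2⟩ := hAd x hx
      rw [union_self, cnt_sup E x h1]
      exact pow_dvd_pow (2 : ℤ) (show 2 ≤ E.card - x.card by omega)
    · intro x hx y hy
      obtain ⟨h1, h2⟩ := hAd x hx
      obtain ⟨h3, h4⟩ := hAd y hy
      rw [cnt_sup E _ (union_subset h1 h3)]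
      have := card_union_le x y
      exact dvd_pow_self 2 (by omega)
  rw [sum_sub_distrib] at f1
  omega

variable {n : ℕ}

theorem amp2 (k : ℕ) (hk : n = k + k) (F : V n → V n) (v : V n) (l : ℝ) (h : ∀ u : V n,
    (walsh F u v : ℝ) = 0 ∨ (walsh F u v : ℝ) = l ∨ (walsh F u v : ℝ) = -l) :
    ∃ (s : ℕ) (w : ℤ), (∀ u, walsh F u v ^ 3 = 2 ^ n * 4 ^ s * walsh F u v) ∧
      walsh F 0 v = 2 ^ k * w ∧ (2 : ℤ) ∣ w + (if s = 0 then 0 else 1) - 1 := by
  have ps := parseval F v
  obtain ⟨u, -, hu⟩ := exists_ne_zero_of_sum_ne_zero (ps ▸ by positivity :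
    ∑ u, walsh F u v ^ 2 ≠ 0)
  have h1 : ∀ w, walsh F w v = 0 ∨ walsh F w v ^ 2 = walsh F u v ^ 2 := by
    intro w
    have hu' : (walsh F u v : ℝ) ≠ 0 := by simpa using hu
    have : (walsh F w v : ℝ) = 0 ∨ (walsh F w v : ℝ) ^ 2 = (walsh F u v : ℝ) ^ 2 := by
      rcases h u with e | e | e <;> rcases h w with e' | e' | e' <;> simp_all
    exact_mod_cast this
  let s := univ.filter fun w => walsh F w v ≠ 0
  have e : (s.card : ℤ) * walsh F u v ^ 2 = 2 ^ n * 2 ^ n := by
    rw [← ps, ← sum_filter_ne_zero univ, ← nsmul_eq_mul, ← sum_const]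
    refine sum_congr (by simp [s]) fun w hw => ((h1 w).resolve_left (by simpa using hw)).symm
  have e' : s.card * (walsh F u v).natAbs ^ 2 = 2 ^ (n + n) := by
    zify; rw [sq_abs, e, pow_add]
  obtain ⟨t, -, ht⟩ := (Nat.dvd_prime_pow Nat.prime_two).1
    (show (walsh F u v).natAbs ∣ 2 ^ (n + n) from ⟨s.card * (walsh F u v).natAbs, by
      rw [← e']; ring⟩)
  have hs : s.card ≤ 2 ^ n := cardV (n := n) ▸ card_le_univ s
  have sq2 : walsh F u v ^ 2 = (2 ^ t) ^ 2 := by
    rw [← sq_abs, Int.abs_eq_natAbs, ht]; push_cast; rfl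
  rw [ht, ← pow_mul] at e'
  have hle : n + n ≤ n + t * 2 := (Nat.pow_le_pow_iff_right (by norm_num : 1 < 2)).1
    (by rw [← e', pow_add]; gcongr)
  obtain ⟨r, rfl⟩ : ∃ r, t = k + r := ⟨t - k, by omega⟩
  have cub : ∀ w, walsh F w v ^ 3 = 2 ^ n * 4 ^ r * walsh F w v := by
    intro w
    rcases h1 w with e | e
    · simp [e]
    · have : (2 : ℤ) ^ n * 4 ^ r = (2 ^ (k + r)) ^ 2 := by
        rw [hk, show (4 : ℤ) = 2 ^ 2 by norm_num, ← pow_mul, ← pow_mul, ← pow_add]
        congr 1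
        ring
      rw [this, ← sq2, ← e]; ring
  rcases Nat.eq_zero_or_pos r with h2 | h2
  · subst h2
    have hc : s.card = Fintype.card (V n) := by
      rw [show (k + 0) * 2 = n by omega, pow_add] at e'
      rw [cardV, Nat.eq_of_mul_eq_mul_right (by positivity) e']
    have h0 : (0 : V n) ∈ s := eq_univ_of_card s hc ▸ mem_univ _
    have h3 := (h1 0).resolve_left (mem_filter.1 h0).2
    rw [sq2, sq_eq_sq_iff_eq_or_eq_neg] at h3
    rcases h3 with h3 | h3
    · exact ⟨0, 1, cub, by simpa using h3, by simp⟩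
    · exact ⟨0, -1, cub, by simpa using h3, by simp⟩
  · have hr : (2 : ℤ) ∣ 2 ^ r := dvd_pow_self 2 (by omega)
    have hne : r ≠ 0 := by omega
    rcases h1 0 with h3 | h3
    · exact ⟨r, 0, cub, by simp [h3], by simp [hne]⟩
    · rw [sq2, sq_eq_sq_iff_eq_or_eq_neg] at h3
      rcases h3 with h3 | h3
      · exact ⟨r, 2 ^ r, cub, by rw [h3]; ring, by simp [hne, hr]⟩
      · exact ⟨r, -2 ^ r, cub, by rw [h3]; ring, by simp [hne, hr]⟩

def vec (R : Finset (Fin n)) : V n := fun j => if j ∈ R then 1 else 0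

theorem sum_vec (f : V n → ℤ) : ∑ v, f v = ∑ R ∈ (univ : Finset (Fin n)).powerset, f (vec R) := by
  symm
  refine sum_bij (fun R _ => vec R) (fun _ _ => mem_univ _) ?_ ?_ fun _ _ => rfl
  · intro R _ S _ h
    ext j
    have := congrFun h j
    simp only [vec] at this
    by_cases h1 : j ∈ R <;> by_cases h2 : j ∈ S <;> simp_all
  · intro v _
    refine ⟨univ.filter fun j => v j = 1, by simp, ?_⟩
    funext j
    simp only [vec, mem_filter, mem_univ, true_and]
    split_ifs with h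
    · exact h.symm
    · exact ((by decide : ∀ t : ZMod 2, ¬ t = 1 → 0 = t) _ h)

theorem vec_dot (R : Finset (Fin n)) (z : V n) : vec R ⬝ᵥ z = ∑ j ∈ R, z j := by
  simp [vec, dotProduct, sum_ite_mem]

theorem chi_sum (R : Finset (Fin n)) (z : V n) : chi (∑ j ∈ R, z j) = ∏ j ∈ R, chi (z j) := by
  induction R using Finset.induction_on with
  | empty => simp [chi]
  | insert a R ha ih => rw [sum_insert ha, prod_insert ha, chi_add, ih]

theorem cube_sum (F : V n → V n) (S : Finset (Fin n)) :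
    (2 : ℤ) ^ S.card ∣ ∑ R ∈ S.powerset, walsh F 0 (vec R) := by
  simp only [walsh_eq, zero_dotProduct, show chi 0 = 1 by decide, mul_one, vec_dot, chi_sum]
  rw [sum_comm]
  refine dvd_sum fun x _ => ?_
  rw [← prod_one_add, ← prod_const]
  exact prod_dvd_prod_of_dvd _ _ fun j _ => (by decide : ∀ t, 2 ∣ 1 + chi t) _

theorem main2 (hn : 4 ≤ n) (he : Even n) {F : V n → V n} (h1 : Plateaued F) (h2 : IsAPN F)
    (a b : V n) (hb : b ≠ F a) : mult F (a, b) ≠ (2 ^ n - 1) / 3 := by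
  intro hm
  obtain ⟨k, hk⟩ := he
  have ex : ∀ v, ∃ (s : ℕ) (w : ℤ), (∀ u, walsh F u v ^ 3 = 2 ^ n * 4 ^ s * walsh F u v) ∧
      walsh F 0 v = 2 ^ k * w ∧ (2 : ℤ) ∣ w + (if s = 0 then 0 else 1) - 1 := by
    intro v
    by_cases hv : v = 0
    · refine amp2 k hk F v (2 ^ n) fun u => ?_
      have : walsh F u v = if u = 0 then 2 ^ n else 0 := by
        rw [← orth, walsh_eq, hv]
        simp [dotProduct_comm u, show chi 0 = 1 by decide]
      rw [this]
      split_ifs <;> simp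
    · obtain ⟨l, -, h⟩ := h1 v hv
      exact amp2 k hk F v l h
  choose s w hL hw hp using ex
  have c1 := count F a b _ hL
  have c2 := count F a (F a) _ hL
  rw [six F a b hb] at c1
  rw [cnt_diag h2] at c2
  simp only [add_self', dotProduct_zero, show chi 0 = 1 by decide, mul_one] at c2
  have m3 : (3 : ℤ) * (mult F (a, b) : ℕ) = 2 ^ n - 1 := by
    have d3 : 3 ∣ 2 ^ n - 1 := by
      rw [hk, ← two_mul, pow_mul]
      exact Nat.sub_one_dvd_pow_sub_one 4 k
    have p1 : 1 ≤ 2 ^ n := Nat.one_le_two_pow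
    have : 3 * mult F (a, b) = 2 ^ n - 1 := by rw [hm]; exact Nat.mul_div_cancel' d3
    have h3 : ((3 * mult F (a, b) : ℕ) : ℤ) = ((2 ^ n - 1 : ℕ) : ℤ) := by rw [this]
    rw [Nat.cast_sub p1] at h3
    push_cast at h3
    exact h3
  set c := F a + b with hc
  have hc0 : c ≠ 0 := fun h => hb ((add_eq _ _).1 h).symm
  have pos : (2 : ℤ) ^ n ≠ 0 := by positivity
  have s2 : ∑ v, (4 : ℤ) ^ s v = 3 * 2 ^ n - 2 := by
    apply mul_left_cancel₀ pos
    rw [c2, mul_sum]
  have s1 : ∑ v, (4 : ℤ) ^ s v * chi (v ⬝ᵥ c) = 2 * 2 ^ n - 2 := by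
    apply mul_left_cancel₀ pos
    rw [mul_sum, sum_congr rfl fun v _ => (mul_assoc _ _ _).symm, ← c1]
    push_cast
    linear_combination 2 * 2 ^ n * m3
  have s0 : ∑ v : V n, chi (v ⬝ᵥ c) = 0 := by rw [orth, if_neg hc0]
  have sc : ∑ _v : V n, (1 : ℤ) = 2 ^ n := by simp
  have z : ∑ v, ((4 : ℤ) ^ s v - 1) * (1 - chi (v ⬝ᵥ c)) = 0 := by
    rw [sum_congr rfl (g := fun v => (4 : ℤ) ^ s v - 4 ^ s v * chi (v ⬝ᵥ c) - 1 + chi (v ⬝ᵥ c))
      fun v _ => by ring]
    simp only [sum_add_distrib, sum_sub_distrib, s2, s1, s0, sc]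
    ring
  have bent : ∀ v, v ⬝ᵥ c = 1 → s v = 0 := by
    intro v hv
    have nn : ∀ v ∈ (univ : Finset (V n)), 0 ≤ ((4 : ℤ) ^ s v - 1) * (1 - chi (v ⬝ᵥ c)) := by
      intro v _
      have a1 : (1 : ℤ) ≤ 4 ^ s v := one_le_pow₀ (by norm_num)
      have a2 := (by decide : ∀ t, 0 ≤ 1 - chi t) (v ⬝ᵥ c)
      exact mul_nonneg (by linarith) a2
    have h3 := (sum_eq_zero_iff_of_nonneg nn).1 z v (mem_univ _)
    rw [hv, show chi 1 = -1 by decide] at h3
    by_contra hne
    have : (4 : ℤ) ^ 1 ≤ 4 ^ s v := pow_le_pow_right₀ (by norm_num) (by omega)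
    linarith
  let h : V n → ℤ := fun v => if s v = 0 then 0 else 1
  have w2 : (4 : ℤ) ∣ ∑ v, h v - 2 := by
    have d : (4 : ℤ) ∣ ∑ v, ((4 : ℤ) ^ s v - 1 + h v) := by
      refine dvd_sum fun v _ => ?_
      simp only [h]
      split_ifs with h0
      · simp [h0]
      · simpa using dvd_pow_self (4 : ℤ) h0
    simp only [sum_add_distrib, sum_sub_distrib, s2, sc] at d
    have : (4 : ℤ) ∣ 2 ^ n := pow_dvd_pow (2 : ℤ) (show 2 ≤ n by omega)
    omega
  obtain ⟨i, hi⟩ := Function.ne_iff.1 hc0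
  have hi1 : c i = 1 := (by decide : ∀ t : ZMod 2, t ≠ 0 → t = 1) _ hi
  have split : ∀ S : Finset (Fin n), i ∉ S → ∑ R ∈ S.powerset, (h (vec R) + h (vec (insert i R))) =
      ∑ R ∈ (insert i S).powerset, h (vec R) := by
    intro S hS
    rw [sum_powerset_insert hS, sum_add_distrib]
  have cardE : (univ.erase i).card = n - 1 := by simp
  have w4 := mce (univ.erase i) (k - 1) (by omega) (by omega)
    (fun R => h (vec R) + h (vec (insert i R))) ?_ ?_
  · rw [split _ (notMem_erase _ _), insert_erase (mem_univ i), ← sum_vec] at w4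
    omega
  · intro R hR
    have hiR : i ∉ R := fun hh => notMem_erase i univ (hR hh)
    have e : vec (insert i R) ⬝ᵥ c = 1 + vec R ⬝ᵥ c := by
      rw [vec_dot, vec_dot, sum_insert hiR, hi1]
    rcases (by decide : ∀ t : ZMod 2, t = 1 ∨ 1 + t = 1) (vec R ⬝ᵥ c) with h3 | h3
    · simp only [h, bent _ h3]
      split_ifs <;> simp
    · simp only [h, bent _ (e.trans h3)]
      split_ifs <;> simp
  · intro S hS hcard
    have hiS : i ∉ S := fun hh => notMem_erase i univ (hS hh)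
    rw [split S hiS]
    have d1 := cube_sum F (insert i S)
    rw [card_insert_of_notMem hiS] at d1
    simp only [hw, ← mul_sum] at d1
    have d2 : (2 : ℤ) ^ k * 2 ∣ 2 ^ k * ∑ R ∈ (insert i S).powerset, w (vec R) :=
      dvd_trans (by rw [← pow_succ]; exact pow_dvd_pow _ (by omega)) d1
    have d3 := Int.dvd_of_mul_dvd_mul_left (by positivity) d2
    have d4 : (2 : ℤ) ∣ ∑ R ∈ (insert i S).powerset, (w (vec R) + h (vec R) - 1) :=
      dvd_sum fun R _ => hp _
    simp only [sum_add_distrib, sum_sub_distrib, sum_const, card_powerset,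
      card_insert_of_notMem hiS, pow_succ, nsmul_eq_mul, mul_one] at d4
    push_cast at d4
    omega

theorem quad_plat {F : V n → V n} (hF : Quadratic F) : Plateaued F := by
  intro v _
  let B : V n → V n → ZMod 2 := fun a x => v ⬝ᵥ (F x + F (x + a) + (F 0 + F a))
  have Bs : ∀ a x, B a x = B x a := by
    intro a x
    simp only [B]
    rw [add_comm x a]
    congr 1
    abel
  have Ba : ∀ a x y, B a (x + y) = B a x + B a y := by
    intro a x y
    obtain ⟨L, c, hL⟩ := hF a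
    have h0 : F 0 + F a = c := by simpa using hL 0
    have e : ∀ x, B a x = v ⬝ᵥ L x := by
      intro x
      simp only [B]
      rw [hL x, h0, add_assoc, add_self', add_zero]
    rw [e, e, e, map_add, dotProduct_add]
  let R := univ.filter fun a : V n => ∀ x, B a x = 0
  have inner : ∀ z, ∑ x, chi (B z x) = if z ∈ R then 2 ^ n else 0 := by
    intro z
    split_ifs with hz
    · simp [(mem_filter.1 hz).2, chi]
    · have : ∃ y, B z y ≠ 0 := by simpa [R] using hz
      obtain ⟨y, hy⟩ := this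
      have h1 : B z y = 1 := (by decide : ∀ t : ZMod 2, t ≠ 0 → t = 1) _ hy
      have := Equiv.sum_comp (Equiv.addRight y) fun x => chi (B z x)
      simp only [Equiv.coe_addRight, Ba, h1, chi_add, ← sum_mul, show chi 1 = -1 by decide] at this
      linarith
  have sq : ∀ u, walsh F u v ^ 2 = 0 ∨ walsh F u v ^ 2 = 2 ^ n * R.card := by
    intro u
    let ψ : V n → ZMod 2 := fun z => v ⬝ᵥ (F 0 + F z) + u ⬝ᵥ z
    have e : walsh F u v ^ 2 = 2 ^ n * ∑ z ∈ R, chi (ψ z) := by
      rw [sq, walsh_eq, conv, mul_sum,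
        ← sum_ite_mem_eq R (fun z => (2 : ℤ) ^ n * chi (ψ z))]
      refine sum_congr rfl fun z _ => ?_
      have : ∀ x, chi (v ⬝ᵥ F x) * chi (v ⬝ᵥ F (x + z)) = chi (B z x) * chi (v ⬝ᵥ (F 0 + F z)) := by
        intro x
        simp only [B]
        rw [← chi_add, ← chi_add, ← dotProduct_add, ← dotProduct_add, add_assoc (F x + _),
          add_self', add_zero]
      simp only [this, ← sum_mul, inner, ψ, chi_add]
      split_ifs <;> ring
    by_cases hψ : ∀ z ∈ R, ψ z = 0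
    · right
      rw [e, sum_congr rfl (g := fun _ => (1 : ℤ)) fun z hz => by rw [hψ z hz]; decide]
      simp
    · left
      push Not at hψ
      obtain ⟨y, hy, hy1⟩ := hψ
      have h1 : ψ y = 1 := (by decide : ∀ t : ZMod 2, t ≠ 0 → t = 1) _ hy1
      have cl : ∀ z ∈ R, z + y ∈ R := by
        intro z hz
        simp only [R, mem_filter, mem_univ, true_and] at hz hy ⊢
        intro x
        rw [Bs, Ba, Bs x z, Bs x y, hz, hy, add_zero]
      have ad : ∀ z, ψ (z + y) = ψ z + 1 := by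
        intro z
        have h2 := (mem_filter.1 hy).2 z
        simp only [B, ψ, dotProduct_add] at h1 h2 ⊢
        generalize v ⬝ᵥ F 0 = p1 at *
        generalize v ⬝ᵥ F z = p2 at *
        generalize v ⬝ᵥ F y = p3 at *
        generalize v ⬝ᵥ F (z + y) = p4 at *
        generalize u ⬝ᵥ z = p5 at *
        generalize u ⬝ᵥ y = p6 at *
        revert p1 p2 p3 p4 p5 p6
        decide
      have h3 : ∑ z ∈ R, chi (ψ z) = ∑ z ∈ R, chi (ψ (z + y)) := by
        refine sum_nbij' (fun z => z + y) (fun z => z + y) cl cl ?_ ?_ ?_ <;> intro z _ <;>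
          simp only [add_assoc, add_self', add_zero]
      simp only [ad, chi_add, ← sum_mul, show chi 1 = -1 by decide] at h3
      rw [e, show ∑ z ∈ R, chi (ψ z) = 0 by linarith, mul_zero]
  refine ⟨Real.sqrt (2 ^ n * R.card), Real.sqrt_nonneg _, fun u => ?_⟩
  rcases sq u with h | h
  · left
    exact_mod_cast pow_eq_zero_iff (two_ne_zero) |>.1 h
  · right
    have h1 : (walsh F u v : ℝ) ^ 2 = Real.sqrt (2 ^ n * R.card) ^ 2 := by
      rw [Real.sq_sqrt (by positivity)]
      exact_mod_cast h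
    exact sq_eq_sq_iff_eq_or_eq_neg.1 h1

theorem result :
    (¬ ∃ (n : ℕ) (F : V n → V n), Even n ∧ 4 ≤ n ∧ Plateaued F ∧ APN F ∧
      ∃ p : V n × V n, p ∉ graph F ∧ mult F p = (2 ^ n - 1) / 3) ∧
    (¬ ∃ (n : ℕ) (F : V n → V n), Even n ∧ 4 ≤ n ∧ Quadratic F ∧ APN F ∧
      ∃ p : V n × V n, p ∉ graph F ∧ mult F p = (2 ^ n - 1) / 3) := by
  have key : ¬ ∃ (n : ℕ) (F : V n → V n), Even n ∧ 4 ≤ n ∧ Plateaued F ∧ APN F ∧
      ∃ p : V n × V n, p ∉ graph F ∧ mult F p = (2 ^ n - 1) / 3 := by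
    rintro ⟨n, F, he, hn, h1, h2, p, hp, hm⟩
    exact main2 hn he h1 (isAPN h2) p.1 p.2
      (fun h => hp (Finset.mem_image.2 ⟨p.1, Finset.mem_univ _, by rw [← h]⟩)) hm
  refine ⟨key, ?_⟩
  rintro ⟨n, F, he, hn, h1, h2⟩
  exact key ⟨n, F, he, hn, quad_plat h1, h2⟩

end Pool.Agent.Results.MP_4cdc07_co.NoMax
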